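import Mathlib

set_option maxHeartbeats 400000

open Finset

namespace Pool.Agent.Results.MP_49e939_nt.Yes

/-- `t_k = C(6k,3k) C(3k,k)`. -/
def t (k : ℕ) : ℕ := (6 * k).choose (3 * k) * (3 * k).choose k

/-- Sun's normalised convolution `a(n)`, a rational number. -/
def a (n : ℕ) : ℚ :=
  (∑ k ∈ range (n + 1), (t k : ℚ) * (t (n - k) : ℚ)) / ((2 * (n : ℚ) - 1) * ((3 * n).choose n : ℚ))

def v (n : ℕ) : ℕ := padicValNat 2 n.factorial

theorem v_even (m : ℕ) : v (2 * m) = v m + m := padicValNat_factorial_mul m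

theorem v_odd (m : ℕ) : v (2 * m + 1) = v m + m := by
  rw [← v_even, v, v, Nat.factorial_succ, padicValNat.mul (by omega) (Nat.factorial_ne_zero _),
    padicValNat.eq_zero_of_not_dvd (by omega), zero_add]

theorem v_choose (n k : ℕ) (h : k ≤ n) : padicValNat 2 (n.choose k) + v k + v (n - k) = v n := by
  rw [v, v, v, ← Nat.choose_mul_factorial_mul_factorial h,
    padicValNat.mul (mul_ne_zero (Nat.choose_pos h).ne' (Nat.factorial_ne_zero _))
      (Nat.factorial_ne_zero _),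
    padicValNat.mul (Nat.choose_pos h).ne' (Nat.factorial_ne_zero _)]

theorem v_zero : v 0 = 0 := by simp [v]

theorem v_lt (n : ℕ) : n ≠ 0 → v n < n ∧ (v n + 1 = n → ∃ j, n = 2 ^ j) := by
  induction n using Nat.strong_induction_on with
  | _ n ih =>
    intro hn
    rcases Nat.even_or_odd' n with ⟨m, rfl | rfl⟩
    · obtain ⟨h1, h2⟩ := ih m (by omega) (by omega)
      rw [v_even]
      refine ⟨by omega, fun h => ?_⟩
      obtain ⟨j, hj⟩ := h2 (by omega)
      exact ⟨j + 1, by rw [pow_succ]; omega⟩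
    · rw [v_odd]
      by_cases m0 : m = 0
      · subst m0
        exact ⟨by simp [v_zero], fun _ => ⟨0, rfl⟩⟩
      · obtain ⟨h1, -⟩ := ih m (by omega) m0
        exact ⟨by omega, fun h => by omega⟩

theorem v_pow (j : ℕ) : v (2 ^ j) + 1 = 2 ^ j ∧ v (3 * 2 ^ j) + 2 = 3 * 2 ^ j := by
  induction j with
  | zero =>
    have a0 := v_zero
    have a1 := v_odd 0
    have a2 := v_odd 1
    have a3 : v 1 = 0 := by simpa [a0] using a1
    have a4 : v 3 = 1 := by simpa [a3] using a2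
    simp [a3, a4]
  | succ j ih =>
    rw [pow_succ', v_even, show 3 * (2 * 2 ^ j) = 2 * (3 * 2 ^ j) by ring, v_even]
    omega

theorem t_ne (k : ℕ) : t k ≠ 0 :=
  mul_ne_zero (Nat.choose_pos (by omega)).ne' (Nat.choose_pos (by omega)).ne'

theorem v_t (k : ℕ) : padicValNat 2 (t k) + 2 * v k = 2 * k := by
  rw [t, padicValNat.mul (Nat.choose_pos (by omega)).ne' (Nat.choose_pos (by omega)).ne']
  have a1 := v_choose (6 * k) (3 * k) (by omega)
  have a2 := v_choose (3 * k) k (by omega)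
  have a3 := v_even (3 * k)
  have a4 := v_even k
  rw [show 6 * k - 3 * k = 3 * k by omega] at a1
  rw [show 3 * k - k = 2 * k by omega] at a2
  rw [show 2 * (3 * k) = 6 * k by omega] at a3
  omega

theorem dvd_iff {x : ℕ} (hx : x ≠ 0) (e : ℕ) : 2 ^ e ∣ x ↔ e ≤ padicValNat 2 x :=
  padicValNat_dvd_iff_le hx

theorem main (n : ℕ) (hn : n ≠ 0) : ∃ U : ℕ,
    ∑ k ∈ range (n + 1), t k * t (n - k) = 2 ^ (2 * (n - v n)) * U ∧
      U % 4 = (2 * n).choose n % 4 := by
  have h1 := (v_lt n hn).1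
  have hv : ∀ k, k ≤ n → padicValNat 2 (t k * t (n - k)) =
      2 * (n - v n) + 2 * padicValNat 2 (n.choose k) := by
    intro k hk
    rw [padicValNat.mul (t_ne _) (t_ne _)]
    have a1 := v_t k
    have a2 := v_t (n - k)
    have a3 := v_choose n k hk
    omega
  let u : ℕ → ℕ := fun k => t k * t (n - k) / 2 ^ (2 * (n - v n))
  have hu : ∀ k, k ≤ n → t k * t (n - k) = 2 ^ (2 * (n - v n)) * u k := fun k hk =>
    (Nat.mul_div_cancel' ((dvd_iff (mul_ne_zero (t_ne _) (t_ne _)) _).2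
      (by rw [hv k hk]; omega))).symm
  have hu0 : ∀ k, k ≤ n → u k ≠ 0 := fun k hk h =>
    mul_ne_zero (t_ne k) (t_ne (n - k)) (by rw [hu k hk, h, mul_zero])
  have huv : ∀ k, k ≤ n → padicValNat 2 (u k) = 2 * padicValNat 2 (n.choose k) := by
    intro k hk
    have := hv k hk
    rw [hu k hk, padicValNat.mul (by positivity) (hu0 k hk), padicValNat.prime_pow] at this
    omega
  have hcv : ∀ k, k ≤ n → padicValNat 2 (n.choose k ^ 2) = 2 * padicValNat 2 (n.choose k) :=
    fun k _ => padicValNat.pow _ _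
  have hc0 : ∀ k, k ≤ n → n.choose k ^ 2 ≠ 0 := fun k hk => pow_ne_zero _ (Nat.choose_pos hk).ne'
  refine ⟨∑ k ∈ range (n + 1), u k, ?_, ?_⟩
  · rw [mul_sum]
    exact sum_congr rfl fun k hk => hu k (Nat.lt_succ_iff.1 (mem_range.1 hk))
  · have key : ∑ k ∈ range (n + 1), ((u k : ZMod 4) - (n.choose k ^ 2 : ℕ)) = 0 := by
      refine sum_involution (fun k _ => n - k) ?_ ?_ ?_ ?_
      · intro k hk
        have hk' := Nat.lt_succ_iff.1 (mem_range.1 hk)
        have e1 : u (n - k) = u k := by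
          simp only [u, Nat.sub_sub_self hk', mul_comm]
        rw [e1, Nat.choose_symm hk']
        have b1 := dvd_iff (hu0 k hk') 1
        have b2 := dvd_iff (hc0 k hk') 1
        rw [huv k hk'] at b1
        rw [hcv k hk'] at b2
        have b3 : (2 * u k) % 4 = (2 * n.choose k ^ 2) % 4 := by
          have : 2 ^ 1 ∣ u k ↔ 2 ^ 1 ∣ n.choose k ^ 2 := b1.trans b2.symm
          omega
        have b4 := (ZMod.natCast_eq_natCast_iff' _ _ 4).2 b3
        rw [Nat.cast_mul, Nat.cast_mul] at b4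
        simp only [Nat.cast_ofNat] at b4
        linear_combination b4
      · intro k hk h e
        apply h
        have hk' := Nat.lt_succ_iff.1 (mem_range.1 hk)
        have a1 := v_choose n k hk'
        have a2 := v_even k
        have a3 := (v_lt k (by omega)).1
        rw [e] at a1
        rw [show 2 * k = n by omega] at a2
        have b1 := (dvd_iff (hu0 k hk') 2).2 (by rw [huv k hk']; omega)
        have b2 := (dvd_iff (hc0 k hk') 2).2 (by rw [hcv k hk']; omega)
        rw [(ZMod.natCast_eq_zero_iff _ 4).2 b1, (ZMod.natCast_eq_zero_iff _ 4).2 b2, sub_zero]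
      · intro k hk
        exact mem_range.2 (by omega)
      · intro k hk
        have := mem_range.1 hk
        omega
    rw [sum_sub_distrib, sub_eq_zero, ← Nat.cast_sum, ← Nat.cast_sum, Nat.sum_range_choose_sq]
      at key
    exact (ZMod.natCast_eq_natCast_iff' _ _ 4).1 key

theorem result (n : ℕ) (hn : 1 ≤ n) :
    a n ≠ 0 ∧ 3 ≤ padicValRat 2 (a n) ∧ (padicValRat 2 (a n) = 3 ↔ ∃ j : ℕ, n = 2 ^ j) := by
  have hn0 : n ≠ 0 := by omega
  obtain ⟨U, hU, hU4⟩ := main n hn0
  have hS : ∑ k ∈ range (n + 1), t k * t (n - k) ≠ 0 := by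
    rw [sum_range_succ']
    have := mul_ne_zero (t_ne 0) (t_ne (n - 0))
    omega
  have hU0 : U ≠ 0 := by rintro rfl; exact hS (by rw [hU, mul_zero])
  have hC : (3 * n).choose n ≠ 0 := (Nat.choose_pos (by omega)).ne'
  have hD : (2 * n - 1) * (3 * n).choose n ≠ 0 := mul_ne_zero (by omega) hC
  have ea : a n = ((2 ^ (2 * (n - v n)) * U : ℕ) : ℚ) / (((2 * n - 1) * (3 * n).choose n : ℕ) : ℚ) := by
    rw [a, ← hU, Nat.cast_mul, Nat.cast_sub (by omega)]
    push_cast
    rfl
  have hN : 2 ^ (2 * (n - v n)) * U ≠ 0 := hU ▸ hS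
  have hval : padicValRat 2 (a n) =
      ((2 * (n - v n) + padicValNat 2 U : ℕ) : ℤ) - (padicValNat 2 ((3 * n).choose n) : ℕ) := by
    rw [ea, padicValRat.div (Nat.cast_ne_zero.2 hN) (Nat.cast_ne_zero.2 hD), padicValRat.of_nat,
      padicValRat.of_nat, padicValNat.mul (by positivity) hU0, padicValNat.prime_pow,
      padicValNat.mul (by omega) hC, padicValNat.eq_zero_of_not_dvd (n := 2 * n - 1) (by omega),
      zero_add]
  obtain ⟨c1, c2⟩ := v_lt n hn0
  obtain ⟨c3, c4⟩ := v_lt (3 * n) (by omega)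
  have c5 : v (3 * n) + 1 ≠ 3 * n := by
    intro h
    obtain ⟨j, hj⟩ := c4 h
    have : 3 ∣ 2 ^ j := ⟨n, hj.symm⟩
    have := Nat.Prime.dvd_of_dvd_pow Nat.prime_three this
    omega
  have c6 := v_choose (3 * n) n (by omega)
  have c7 := v_choose (2 * n) n (by omega)
  have c8 := v_even n
  rw [show 3 * n - n = 2 * n by omega] at c6
  rw [show 2 * n - n = n by omega] at c7
  have hB : (2 * n).choose n ≠ 0 := (Nat.choose_pos (by omega)).ne'
  have d1 := dvd_iff hU0 1
  have d2 := dvd_iff hU0 2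
  have d3 := dvd_iff hB 1
  have d4 := dvd_iff hB 2
  have f1 : 2 ^ 1 ∣ U ↔ 2 ^ 1 ∣ (2 * n).choose n := by omega
  have f2 : 2 ^ 2 ∣ U ↔ 2 ^ 2 ∣ (2 * n).choose n := by omega
  have g1 : 1 ≤ padicValNat 2 U := d1.1 (f1.2 (d3.2 (by omega)))
  have g2 : 2 ≤ padicValNat 2 U ↔ 2 ≤ padicValNat 2 ((2 * n).choose n) :=
    d2.symm.trans (f2.trans d4)
  clear c4 d1 d2 d3 d4 f1 f2 hU hU4 hS
  refine ⟨?_, by rw [hval]; clear c2; omega, ?_⟩
  · rw [ea]
    exact div_ne_zero (Nat.cast_ne_zero.2 hN) (Nat.cast_ne_zero.2 hD)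
  · rw [hval]
    constructor
    · intro h
      exact c2 (by clear c2; omega)
    · rintro ⟨j, hj⟩
      obtain ⟨e1, e2⟩ := v_pow j
      rw [← hj] at e1 e2
      clear c2 hj
      omega

end Pool.Agent.Results.MP_49e939_nt.Yes
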